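import Pool.Agent.X100.KH.Main

/-! # Stability of the third-moment Khintchine inequality

`E |S| ^ 3` of a weighted sum `S = ∑ a i ε i` of independent random signs is the average of
`|∑ a i ε i| ^ 3` over the `2 ^ n` sign vectors. -/

set_option autoImplicit false

namespace Pool.Agent.Results.MP_223ae3_pr.ThirdMomentStability

/-- `E |a 0 ε 0 + ... + a (n-1) ε (n-1)| ^ 3` for independent random signs `ε i`: the average over
all `2 ^ n` sign vectors. -/
noncomputable def thirdMoment {n : ℕ} (a : Fin n → ℝ) : ℝ :=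
  (∑ ε : Fin n → Bool, |∑ i, a i * (if ε i then (1 : ℝ) else -1)| ^ 3) / 2 ^ n

/-- `E |S| ^ 3 ≤ E |S_n| ^ 3 - C_3 D(a)` with `C_3 = 1 / 256`, for all `n` and all unit vectors. -/
theorem result (n : ℕ) (hn : 1 ≤ n) (a : Fin n → ℝ) (ha : ∑ i, a i ^ 2 = 1) :
    thirdMoment a ≤ thirdMoment (fun _ : Fin n => (Real.sqrt n)⁻¹) -
      1 / 256 * ∑ i, (a i ^ 2 - (n : ℝ)⁻¹) ^ 2 :=
  Pool.Agent.X100.KH.main n hn a ha

end Pool.Agent.Results.MP_223ae3_pr.ThirdMomentStability
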